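import Pool.Agent.Run7.h47.SD.Iface

/-!
# Project SD (helper47), piece MOMG: moments of the resolvent for the Gaussian law
-/

set_option autoImplicit false

namespace Pool.Agent.Run7.h47.SD

open MeasureTheory ProbabilityTheory

noncomputable section

namespace MOMGp

theorem integrable_pow_exp (n : ℕ) : IntegrableOn (fun t : ℝ => t ^ n * Real.exp (-t))
    (Set.Ioi 0) := by
  have := Real.GammaIntegral_convergent (s := n + 1) (by positivity)
  refine this.congr_fun (fun t ht => ?_) measurableSet_Ioi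
  simp only
  rw [add_sub_cancel_right, Real.rpow_natCast, mul_comm]

theorem norm_term (v t : ℝ) (n : ℕ) (ht : 0 ≤ t) :
    ‖(t : ℂ) ^ n * Complex.exp (-((1 + Complex.I * v) * t))‖ = t ^ n * Real.exp (-t) := by
  rw [norm_mul, norm_pow, Complex.norm_exp, Complex.norm_real, Real.norm_of_nonneg ht]
  congr 2
  simp

theorem integrable_term (v : ℝ) (n : ℕ) :
    IntegrableOn (fun t : ℝ => (t : ℂ) ^ n * Complex.exp (-((1 + Complex.I * v) * t)))
      (Set.Ioi 0) := by
  refine (integrable_pow_exp n).mono' ?_ ?_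
  · refine Continuous.aestronglyMeasurable ?_
    fun_prop
  · refine (ae_restrict_iff' measurableSet_Ioi).2 (Filter.Eventually.of_forall fun t ht => ?_)
    exact (norm_term v t n (le_of_lt ht)).le

theorem gam (v : ℝ) (n : ℕ) :
    ∫ t in Set.Ioi (0 : ℝ), (t : ℂ) ^ n * Complex.exp (-((1 + Complex.I * v) * t)) =
      (1 / (1 + Complex.I * v)) ^ (n + 1) * (n.factorial : ℂ) := by
  set r : ℂ := 1 + Complex.I * v with hr
  have hr1 : r.re = 1 := by simp [hr]
  have hr0 : r ≠ 0 := fun h => by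
    rw [h] at hr1
    simp at hr1
  have hE : ∀ t : ℝ, HasDerivAt (fun t : ℝ => Complex.exp (-(r * t)))
      (-(r * Complex.exp (-(r * t)))) t := by
    intro t
    have h1 : HasDerivAt (fun t : ℝ => -(r * (t : ℂ))) (-(r * 1)) t :=
      ((Complex.ofRealCLM.hasDerivAt (x := t)).const_mul r).neg
    have h2 := h1.cexp
    convert! h2 using 1
    ring
  have hT : ∀ k : ℕ, Filter.Tendsto (fun t : ℝ => (t : ℂ) ^ k * Complex.exp (-(r * t)))
      Filter.atTop (nhds 0) := by
    intro k
    rw [tendsto_zero_iff_norm_tendsto_zero]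
    refine (Real.tendsto_pow_mul_exp_neg_atTop_nhds_zero k).congr' ?_
    filter_upwards [Filter.eventually_ge_atTop 0] with t ht
    exact (norm_term v t k ht).symm
  induction n with
  | zero =>
    have h1 : ∀ t ∈ Set.Ioi (0 : ℝ), HasDerivAt (fun t : ℝ => -(1 / r) * Complex.exp (-(r * t)))
        ((t : ℂ) ^ 0 * Complex.exp (-(r * t))) t := by
      intro t _
      convert! (hE t).const_mul (-(1 / r)) using 1
      field_simp
    have h2 := integral_Ioi_of_hasDerivAt_of_tendsto
      (((hE 0).const_mul (-(1 / r))).continuousAt.continuousWithinAt) h1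
      (integrable_term v 0) (m := 0) (by
        have := (hT 0).const_mul (-(1 / r))
        simpa using this)
    rw [h2]
    simp
  | succ n ih =>
    have hP : ∀ t : ℝ, HasDerivAt (fun t : ℝ => (t : ℂ) ^ (n + 1)) (((n + 1 : ℕ) : ℂ) * (t : ℂ) ^ n)
        t := by
      intro t
      have h1 := (Complex.ofRealCLM.hasDerivAt (x := t)).pow (n + 1)
      convert! h1 using 1
      simp
    have h1 : ∀ t : ℝ, HasDerivAt (fun t : ℝ => (t : ℂ) ^ (n + 1) * Complex.exp (-(r * t)))
        (((n + 1 : ℕ) : ℂ) * ((t : ℂ) ^ n * Complex.exp (-(r * t))) -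
          r * ((t : ℂ) ^ (n + 1) * Complex.exp (-(r * t)))) t := by
      intro t
      convert! (hP t).mul (hE t) using 1
      ring
    have hi := ((integrable_term v n).const_mul ((n + 1 : ℕ) : ℂ)).sub
      ((integrable_term v (n + 1)).const_mul r)
    have h2 := integral_Ioi_of_hasDerivAt_of_tendsto (h1 0).continuousAt.continuousWithinAt
      (fun t _ => h1 t) hi (hT (n + 1))
    rw [integral_sub ((integrable_term v n).const_mul _) ((integrable_term v (n + 1)).const_mul _),
      integral_const_mul, integral_const_mul, ih] at h2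
    simp only [Complex.ofReal_zero, ne_eq, Nat.add_eq_zero_iff, one_ne_zero, and_false,
      not_false_eq_true, zero_pow, zero_mul, sub_zero] at h2
    have h3 : r * ∫ t in Set.Ioi (0 : ℝ), (t : ℂ) ^ (n + 1) * Complex.exp (-(r * t)) =
        ((n + 1 : ℕ) : ℂ) * ((1 / r) ^ (n + 1) * (n.factorial : ℂ)) := (sub_eq_zero.1 h2).symm
    have h4 : ∫ t in Set.Ioi (0 : ℝ), (t : ℂ) ^ (n + 1) * Complex.exp (-(r * t)) =
        (1 / r) * (r * ∫ t in Set.Ioi (0 : ℝ), (t : ℂ) ^ (n + 1) * Complex.exp (-(r * t))) := by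
      field_simp
    rw [h4, h3, Nat.factorial_succ]
    push_cast
    ring

theorem dd_eq (v : ℝ) (n : ℕ) : dd v ^ (n + 1) = Complex.I ^ (n + 1) / (n.factorial : ℂ) *
    ∫ t in Set.Ioi (0 : ℝ), (t : ℂ) ^ n * Complex.exp (-((1 + Complex.I * v) * t)) := by
  rw [gam]
  have hr0 : (1 + Complex.I * (v : ℂ)) ≠ 0 := fun h => by
    have := congrArg Complex.re h
    simp at this
  have h4 : (n.factorial : ℂ) ≠ 0 := by exact_mod_cast n.factorial_ne_zero
  have h5 : dd v = Complex.I * (1 / (1 + Complex.I * v)) := by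
    unfold dd
    have h6 : (v : ℂ) - Complex.I ≠ 0 := by
      intro h
      have := congrArg Complex.im h
      simp at this
    rw [mul_one_div, div_eq_div_iff h6 hr0, mul_sub, Complex.I_mul_I]
    ring
  rw [h5, mul_pow]
  field_simp

/-- the real integral -/
def JJ (n : ℕ) (s : ℝ) : ℝ := ∫ t in Set.Ioi (0 : ℝ), t ^ n * Real.exp (-t - s ^ 2 * t ^ 2 / 2)

theorem mean_char (s t : ℝ) : ∫ x : ℝ, Complex.exp (-((Complex.I * ((s * x : ℝ) : ℂ)) * t))
    ∂(gaussianReal 0 1) = ((Real.exp (-(s ^ 2 * t ^ 2 / 2)) : ℝ) : ℂ) := by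
  have h := charFun_gaussianReal (μ := 0) (v := 1) (-(s * t))
  rw [charFun_apply_real] at h
  have h1 : ∫ x : ℝ, Complex.exp (-((Complex.I * ((s * x : ℝ) : ℂ)) * t)) ∂(gaussianReal 0 1) =
      ∫ x : ℝ, Complex.exp (((-(s * t) : ℝ) : ℂ) * x * Complex.I) ∂(gaussianReal 0 1) := by
    refine integral_congr_ae (Filter.Eventually.of_forall fun x => ?_)
    simp only
    congr 1
    push_cast
    ring
  rw [h1, h, Complex.ofReal_exp]
  congr 1
  push_cast
  ring

theorem mean_dd (s : ℝ) (n : ℕ) : ∫ x, dd (s * x) ^ (n + 1) ∂(gaussianReal 0 1) =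
    Complex.I ^ (n + 1) / (n.factorial : ℂ) * (JJ n s : ℂ) := by
  have h1 : ∀ x : ℝ, dd (s * x) ^ (n + 1) = Complex.I ^ (n + 1) / (n.factorial : ℂ) *
      ∫ t in Set.Ioi (0 : ℝ), (t : ℂ) ^ n * Complex.exp (-((1 + Complex.I * ((s * x : ℝ) : ℂ)) * t)) :=
    fun x => dd_eq (s * x) n
  rw [integral_congr_ae (Filter.Eventually.of_forall h1), integral_const_mul]
  congr 1
  have hint : Integrable (Function.uncurry fun (x : ℝ) (t : ℝ) =>
      (t : ℂ) ^ n * Complex.exp (-((1 + Complex.I * ((s * x : ℝ) : ℂ)) * t)))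
      ((gaussianReal 0 1).prod (volume.restrict (Set.Ioi (0 : ℝ)))) := by
    have h2 : Integrable (fun p : ℝ × ℝ => p.2 ^ n * Real.exp (-p.2))
        ((gaussianReal 0 1).prod (volume.restrict (Set.Ioi (0 : ℝ)))) :=
      (integrable_pow_exp n).comp_snd (gaussianReal 0 1)
    refine h2.norm.mono' ?_ (Filter.Eventually.of_forall fun p => ?_)
    · refine Continuous.aestronglyMeasurable ?_
      unfold Function.uncurry
      fun_prop
    · simp only [Function.uncurry]
      rw [norm_mul, norm_mul, norm_pow, norm_pow, Complex.norm_exp, Complex.norm_real]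
      have : (-((1 + Complex.I * ((s * p.1 : ℝ) : ℂ)) * (p.2 : ℂ))).re = -p.2 := by
        simp
      rw [this, Real.norm_of_nonneg (Real.exp_pos _).le]
  rw [integral_integral_swap hint]
  have h3 : ∀ t : ℝ, ∫ x : ℝ, (t : ℂ) ^ n *
      Complex.exp (-((1 + Complex.I * ((s * x : ℝ) : ℂ)) * t)) ∂(gaussianReal 0 1) =
      ((t ^ n * Real.exp (-t - s ^ 2 * t ^ 2 / 2) : ℝ) : ℂ) := by
    intro t
    have h4 : ∀ x : ℝ, (t : ℂ) ^ n * Complex.exp (-((1 + Complex.I * ((s * x : ℝ) : ℂ)) * t)) =
        ((t : ℂ) ^ n * Complex.exp (-(t : ℂ))) *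
          Complex.exp (-((Complex.I * ((s * x : ℝ) : ℂ)) * t)) := by
      intro x
      rw [mul_assoc, ← Complex.exp_add]
      congr 2
      ring
    rw [integral_congr_ae (Filter.Eventually.of_forall h4), integral_const_mul, mean_char]
    push_cast
    rw [mul_assoc, ← Complex.exp_add]
    congr 2
  rw [integral_congr_ae (Filter.Eventually.of_forall h3)]
  unfold JJ
  exact integral_ofReal

theorem JJ_integrable (n : ℕ) (s : ℝ) : IntegrableOn
    (fun t : ℝ => t ^ n * Real.exp (-t - s ^ 2 * t ^ 2 / 2)) (Set.Ioi 0) := by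
  refine (integrable_pow_exp n).mono' ?_ ?_
  · refine Continuous.aestronglyMeasurable ?_
    fun_prop
  · refine (ae_restrict_iff' measurableSet_Ioi).2 (Filter.Eventually.of_forall fun t ht => ?_)
    have ht' : (0 : ℝ) < t := ht
    rw [Real.norm_of_nonneg (by positivity)]
    have : Real.exp (-t - s ^ 2 * t ^ 2 / 2) ≤ Real.exp (-t) := by
      refine Real.exp_le_exp.2 ?_
      have : 0 ≤ s ^ 2 * t ^ 2 / 2 := by positivity
      linarith
    gcongr

theorem JJ_nonneg (n : ℕ) (s : ℝ) : 0 ≤ JJ n s := by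
  unfold JJ
  refine setIntegral_nonneg measurableSet_Ioi fun t ht => ?_
  have ht' : (0 : ℝ) < t := ht
  positivity

theorem JJ_le (n : ℕ) {s : ℝ} (hs : 1 ≤ s) : JJ n s / n.factorial ≤ (2 / s) ^ (n + 1) := by
  have hs0 : 0 < s := by linarith
  have hG := Real.integral_rpow_mul_exp_neg_mul_Ioi (a := n + 1) (r := s) (by positivity) hs0
  have hG' : ∫ t in Set.Ioi (0 : ℝ), t ^ n * Real.exp (-(s * t)) =
      (1 / s) ^ (n + 1) * n.factorial := by
    rw [Real.Gamma_nat_eq_factorial] at hG
    have e : (1 / s) ^ ((n : ℝ) + 1) = (1 / s) ^ (n + 1) := by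
      rw [← Real.rpow_natCast]
      push_cast
      rfl
    rw [e] at hG
    rw [← hG]
    refine integral_congr_ae (Filter.Eventually.of_forall fun t => ?_)
    simp only
    rw [add_sub_cancel_right, Real.rpow_natCast]
  have hint : IntegrableOn (fun t : ℝ => t ^ n * Real.exp (-(s * t))) (Set.Ioi 0) := by
    refine (integrable_pow_exp n).mono' ?_ ?_
    · refine Continuous.aestronglyMeasurable ?_
      fun_prop
    · refine (ae_restrict_iff' measurableSet_Ioi).2 (Filter.Eventually.of_forall fun t ht => ?_)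
      have ht' : (0 : ℝ) < t := ht
      rw [Real.norm_of_nonneg (by positivity)]
      have : Real.exp (-(s * t)) ≤ Real.exp (-t) := by
        refine Real.exp_le_exp.2 ?_
        nlinarith
      gcongr
  have h1 : JJ n s ≤ 2 * ((1 / s) ^ (n + 1) * n.factorial) := by
    rw [← hG', ← integral_const_mul]
    unfold JJ
    refine setIntegral_mono_on (JJ_integrable n s) (hint.const_mul 2) measurableSet_Ioi
      fun t ht => ?_
    have ht' : (0 : ℝ) < t := ht
    have h2 : Real.exp (-t - s ^ 2 * t ^ 2 / 2) ≤ 2 * Real.exp (-(s * t)) := by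
      have h3 : Real.exp (-t - s ^ 2 * t ^ 2 / 2) ≤ Real.exp (1 / 2 + -(s * t)) := by
        refine Real.exp_le_exp.2 ?_
        nlinarith [sq_nonneg (s * t - 1)]
      rw [Real.exp_add] at h3
      have h4 : Real.exp (1 / 2) ≤ 2 := by
        have h5 : Real.exp (1 / 2) ^ 2 ≤ 2 ^ 2 := by
          rw [← Real.exp_nat_mul]
          norm_num
          linarith [Real.exp_one_lt_d9]
        exact le_of_sq_le_sq h5 (by norm_num)
      exact h3.trans (mul_le_mul_of_nonneg_right h4 (Real.exp_pos _).le)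
    calc t ^ n * Real.exp (-t - s ^ 2 * t ^ 2 / 2) ≤ t ^ n * (2 * Real.exp (-(s * t))) := by
          gcongr
      _ = 2 * (t ^ n * Real.exp (-(s * t))) := by ring
  have hf : (0 : ℝ) < n.factorial := by exact_mod_cast n.factorial_pos
  rw [div_le_iff₀ hf]
  refine h1.trans ?_
  rw [← mul_assoc]
  refine mul_le_mul_of_nonneg_right ?_ hf.le
  rw [div_pow, div_pow, one_pow]
  have h6 : (2 : ℝ) ≤ 2 ^ (n + 1) := by
    calc (2 : ℝ) = 2 ^ 1 := by norm_num
      _ ≤ 2 ^ (n + 1) := pow_le_pow_right₀ (by norm_num) (by omega)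
  have h7 : 0 < s ^ (n + 1) := by positivity
  rw [mul_one_div]
  gcongr

theorem JJ_low {s : ℝ} (hs : 1 ≤ s) : Real.exp (-(3 / 2)) / s ≤ JJ 0 s := by
  have hs0 : 0 < s := by linarith
  have h1 : ∫ _t in Set.Ioc (0 : ℝ) (1 / s), Real.exp (-(3 / 2)) = Real.exp (-(3 / 2)) / s := by
    rw [setIntegral_const, Measure.real, Real.volume_Ioc, sub_zero,
      ENNReal.toReal_ofReal (by positivity), smul_eq_mul]
    ring
  rw [← h1]
  unfold JJ
  have hsub : Set.Ioc (0 : ℝ) (1 / s) ⊆ Set.Ioi 0 := fun t ht => ht.1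
  refine le_trans ?_ (setIntegral_mono_set (JJ_integrable 0 s) ?_ hsub.eventuallyLE)
  · refine setIntegral_mono_on ?_ ((JJ_integrable 0 s).mono_set hsub) measurableSet_Ioc
      fun t ht => ?_
    · exact integrableOn_const (by simp) (by simp)
    · rw [pow_zero, one_mul]
      refine Real.exp_le_exp.2 ?_
      have h2 : s * t ≤ 1 := by
        have := ht.2
        rw [le_div_iff₀ hs0] at this
        linarith
      have h3 : t ≤ 1 := by
        have := ht.1
        nlinarith
      have h4 : s ^ 2 * t ^ 2 ≤ 1 := by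
        rw [← mul_pow]
        have : 0 ≤ s * t := by have := ht.1; positivity
        exact pow_le_one₀ this h2
      linarith
  · refine (ae_restrict_iff' measurableSet_Ioi).2 (Filter.Eventually.of_forall fun t ht => ?_)
    have ht' : (0 : ℝ) < t := ht
    show (0 : ℝ) ≤ t ^ 0 * Real.exp (-t - s ^ 2 * t ^ 2 / 2)
    positivity

theorem dd_measurable : Measurable dd := by
  unfold dd
  fun_prop

end MOMGp

open MOMGp

theorem t_MOMG : S_MOMG := by
  refine ⟨2, 2 * Real.exp (3 / 2), by norm_num, ?_, fun sg hsg => ?_⟩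
  · have : (1 : ℝ) ≤ Real.exp (3 / 2) := Real.one_le_exp (by norm_num)
    linarith
  have hs0 : 0 < sg := by linarith
  have hmeas : AEMeasurable (fun x : ℝ => sg * x) (gaussianReal 0 1) :=
    (measurable_const_mul sg).aemeasurable
  have hmap : ∀ m : ℕ, ∫ v, dd v ^ m ∂((gaussianReal 0 1).map fun x => sg * x) =
      ∫ x, dd (sg * x) ^ m ∂(gaussianReal 0 1) := fun m =>
    integral_map hmeas (dd_measurable.pow_const m).aestronglyMeasurable
  refine ⟨by positivity, ?_, ?_, ?_⟩
  · have : (1 : ℝ) ≤ Real.exp (3 / 2) := Real.one_le_exp (by norm_num)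
    linarith
  · intro m hm
    obtain ⟨n, rfl⟩ : ∃ n, m = n + 1 := ⟨m - 1, by omega⟩
    rw [hmap, mean_dd, norm_mul, norm_div, norm_pow, Complex.norm_I, one_pow,
      Complex.norm_natCast, Complex.norm_real, Real.norm_of_nonneg (JJ_nonneg n sg),
      one_div, inv_mul_eq_div]
    exact JJ_le n hsg
  · have h1 : ∫ v, dd v ∂((gaussianReal 0 1).map fun x => sg * x) =
        Complex.I * (JJ 0 sg : ℂ) := by
      have := (hmap 1).trans (mean_dd sg 0)
      simpa using this
    rw [h1]
    have h2 : (Complex.I * (JJ 0 sg : ℂ)).im = JJ 0 sg := by simp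
    rw [h2]
    refine le_trans (le_of_eq ?_) (JJ_low hsg)
    rw [Real.exp_neg]
    have := (Real.exp_pos (3 / 2)).ne'
    field_simp

end

end Pool.Agent.Run7.h47.SD
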